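import Pool.Agent.Lib.PS.All

namespace Pool.Agent.Results.MP_d48457_nt.ExceptionalSet

/-- The integers up to `X` that are not a prime plus a square number at most `C X^(7/10)`. -/
theorem result : ∃ C : ℝ, ∀ X : ℕ, 1 ≤ X →
    (Set.ncard {n : ℕ | n ≤ X ∧ ¬ ∃ p m : ℕ, p.Prime ∧ n = p + m ^ 2} : ℝ)
      ≤ C * (X : ℝ) ^ (7 / 10 : ℝ) := by
  classical
  obtain ⟨C, h⟩ := Pool.Agent.Lib.PS.all_final
  refine ⟨C + 1, fun X hX => ?_⟩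
  have h1 := h X hX
  have e : (1 - 1 / (10 / 3) : ℝ) = 7 / 10 := by norm_num
  rw [e] at h1
  have h2 : (1 : ℝ) ≤ (X : ℝ) ^ (7 / 10 : ℝ) :=
    Real.one_le_rpow (by exact_mod_cast hX) (by norm_num)
  have h3 : {n : ℕ | n ≤ X ∧ ¬ ∃ p m : ℕ, p.Prime ∧ n = p + m ^ 2} ⊆
      ↑(insert 0 ((Finset.Icc 1 X).filter fun n => ¬ ∃ p m : ℕ, p.Prime ∧ n = p + m ^ 2)) := by
    rintro n ⟨h4, h5⟩
    rw [Finset.mem_coe, Finset.mem_insert, Finset.mem_filter, Finset.mem_Icc]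
    rcases Nat.eq_zero_or_pos n with h6 | h6
    · exact Or.inl h6
    · exact Or.inr ⟨⟨h6, h4⟩, h5⟩
  have h4 := Set.ncard_le_ncard h3 (Finset.finite_toSet _)
  rw [Set.ncard_coe_finset] at h4
  have h5 := h4.trans (Finset.card_insert_le _ _)
  have h6 : (Set.ncard {n : ℕ | n ≤ X ∧ ¬ ∃ p m : ℕ, p.Prime ∧ n = p + m ^ 2} : ℝ) ≤
      (((Finset.Icc 1 X).filter fun n => ¬ ∃ p m : ℕ, p.Prime ∧ n = p + m ^ 2).card : ℝ) + 1 := by
    exact_mod_cast h5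
  have h7 : (((Finset.Icc 1 X).filter fun n => ¬ ∃ p m : ℕ, p.Prime ∧ n = p + m ^ 2).card : ℝ)
      ≤ C * (X : ℝ) ^ (7 / 10 : ℝ) := by
    convert h1
  linarith

end Pool.Agent.Results.MP_d48457_nt.ExceptionalSet
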