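import Pool.Agent.Lib.APQ.All

namespace Pool.Agent.Results.MP_d48457_nt.LargeModulus

/-- Almost all integers of a reduced class to a prime modulus up to `X^(1/2+δ)` are a prime plus
a square. -/
theorem result : ∃ δ : ℝ, 0 < δ ∧ ∀ ε : ℝ, 0 < ε → ∃ X₀ : ℕ, ∀ X q a : ℕ, X₀ ≤ X → q.Prime →
    (q : ℝ) ≤ (X : ℝ) ^ (1 / 2 + δ) → ¬ q ∣ a →
    (Set.ncard {n : ℕ | n ≤ X ∧ n ≡ a [MOD q] ∧ ¬ ∃ p m : ℕ, p.Prime ∧ n = p + m ^ 2} : ℝ)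
      ≤ ε * X / q :=
  Pool.Agent.Lib.APQ.all_apq

end Pool.Agent.Results.MP_d48457_nt.LargeModulus
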