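import Pool.Agent.Lib.LV51.F

set_option autoImplicit false

namespace Pool.Agent.Results.MP_d48457_nt.OddParity

/-- For `n = 2 p k²` with the prime `p` in the stated classes, some positive number `n - m²` has
an odd number of prime factors, counted with multiplicity. -/
theorem result (p k : ℕ) (hp : p.Prime) (hk : 0 < k)
    (h : p % 4 = 3 ∨ p % 24 = 17 ∨ p % 40 = 17 ∨ p % 40 = 33 ∨
      p % 56 = 29 ∨ p % 56 = 37 ∨ p % 56 = 53) :
    ∃ m : ℕ, m ^ 2 < 2 * p * k ^ 2 ∧
      Odd (ArithmeticFunction.cardFactors (2 * p * k ^ 2 - m ^ 2)) := by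
  refine Lib.LV51.of_not_hy (n := 2 * p) ?_ k hk
  rcases h with h | h | h | h | h
  · exact_mod_cast Lib.LV51.not_hy hp (.inl h)
  · exact_mod_cast Lib.LV51.not_hy hp (.inr (.inl h))
  · exact_mod_cast Lib.LV51.not_hy hp (.inr (.inr (.inl h)))
  · exact_mod_cast Lib.LV51.not_hy hp (.inr (.inr (.inr h)))
  · exact_mod_cast Lib.LV51.not_hy7 hp h

end Pool.Agent.Results.MP_d48457_nt.OddParity
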