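import Pool.Agent.Lib.MP_d48457_nt.Exist

set_option autoImplicit false

namespace Pool.Agent.Results.MP_d48457_nt.ThinSquareClass

open Filter Topology

/-- For every non-square `D`, the number `D * k ^ 2` is a prime plus a square for almost all `k`. -/
theorem result : ∀ D : ℕ, ¬ IsSquare D →
    Tendsto (fun K : ℕ =>
      (({k : ℕ | k < K ∧ ¬ ∃ p m : ℕ, p.Prime ∧ D * k ^ 2 = p + m ^ 2}.ncard : ℕ) : ℝ) / (K : ℝ))
      atTop (𝓝 0) := by
  intro D hD
  classical
  refine (Pool.Agent.Lib.MP_d48457_nt.thin_main hD).congr (fun K => ?_)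
  rw [Pool.Agent.Lib.MP_d48457_nt.sum_ind_eq_card, ← Set.ncard_coe_finset]
  congr 3
  ext k
  simp

end Pool.Agent.Results.MP_d48457_nt.ThinSquareClass
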